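import Pool.Agent.N657.QL.Stm2

/-!
# Project QL, part LALL: the lower bound of the depletion at all densities
-/

namespace Pool.Agent.N989.QL_LALL

open MeasureTheory Filter Topology
open Pool.Agent.N657.QR Pool.Agent.N657.QL

lemma nnw_nonneg {d L : ℕ} [NeZero L] (x y : Fin d → ZMod L) : 0 ≤ nnw (1 : ℝ) x y := by
  unfold nnw
  exact Finset.sum_nonneg fun i _ => by split_ifs <;> norm_num

lemma wg_nonneg {d L : ℕ} [NeZero L] {γ : ℝ} (hγ : 0 ≤ γ) (x y : Fin d → ZMod L) :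
    0 ≤ wg γ x y := by
  unfold wg
  exact add_nonneg (nnw_nonneg x y) (div_nonneg hγ (Nat.cast_nonneg _))

lemma FF_wg {d L : ℕ} [NeZero L] (K : Matrix (Fin d → ZMod L) (Fin d → ZMod L) ℝ) (γ : ℝ)
    (ν : (Fin d → ZMod L) → ℝ) (ψ : ((Fin d → ZMod L) → ℤ) → ℝ) :
    FF K (wg γ) ν ψ = FF K (nnw 1) ν ψ -
      γ / (Fintype.card (Fin d → ZMod L) : ℝ) * ∑ x, ∑ y, cr x y ψ := by
  unfold FF wg
  simp only [add_mul, Finset.sum_add_distrib, Finset.mul_sum]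
  ring

theorem main (hB : S_BAS) (hX : S_EX) (hLB : Pool.Agent.N657.QR.S_LB) (hG : S_LOWG) (hD : S_DIF)
    (hGam : S_GAM) : S_LALL := by
  intro d hd ε hε
  obtain ⟨γ, hγ, hIL⟩ := hGam d hd (ε / 4) (by positivity)
  obtain ⟨U₁, hU₁, hlow⟩ := hG d hd (ε / 4) γ (by positivity) hγ.le
  refine ⟨min U₁ ((ε * γ / 4) ^ 2), lt_min hU₁ (by positivity), fun U hU hUU => ?_⟩
  obtain ⟨L₀, hL₀⟩ := hlow U hU (hUU.trans (min_le_left _ _))
  refine ⟨L₀, fun L _ hL hE ν N Φ hΦ => ?_⟩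
  have hsU : 0 < Real.sqrt U := Real.sqrt_pos.2 hU
  have hUU2 : U = Real.sqrt U * Real.sqrt U := (Real.mul_self_sqrt hU.le).symm
  have hsU2 : Real.sqrt U ≤ ε * γ / 4 := by
    have h1 := Real.sqrt_le_sqrt (hUU.trans (min_le_right _ _))
    rwa [Real.sqrt_sq (by positivity)] at h1
  obtain ⟨V, hV⟩ : ∃ V : ℝ, V = (Fintype.card (Fin d → ZMod L) : ℝ) := ⟨_, rfl⟩
  have hV0 : 0 < V := by
    rw [hV]
    exact_mod_cast Fintype.card_pos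
  have hPD : (U • (1 : Matrix (Fin d → ZMod L) (Fin d → ZMod L) ℝ)).PosDef :=
    Matrix.PosDef.one.smul hU
  obtain ⟨Ψ, hΨ⟩ := hX (U • (1 : Matrix (Fin d → ZMod L) (Fin d → ZMod L) ℝ)) (wg γ) 0 0 hPD
    (wg_nonneg hγ.le)
  have h1 := hL₀ L hL hE Ψ hΨ
  obtain ⟨f1, f2, f3, f4⟩ := hΦ
  obtain ⟨p1, p2, p3, p4⟩ := hΨ
  have h2 := hLB (U • (1 : Matrix (Fin d → ZMod L) (Fin d → ZMod L) ℝ)) (wg γ) ν N Φ
    hPD.posSemidef (wg_nonneg hγ.le) f1 f2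
  have h3 := hLB (U • (1 : Matrix (Fin d → ZMod L) (Fin d → ZMod L) ℝ)) (nnw 1) 0 0 Ψ
    hPD.posSemidef nnw_nonneg p1 p2
  have h4 := hD U (nnw 1) (wg γ : (Fin d → ZMod L) → (Fin d → ZMod L) → ℝ) ν N hU nnw_nonneg
    (wg_nonneg hγ.le)
  rw [f3, mul_one, FF_wg, f4, ← hV] at h2
  have e1 := FF_wg (U • (1 : Matrix (Fin d → ZMod L) (Fin d → ZMod L) ℝ)) γ 0 Ψ
  rw [p4, ← hV] at e1
  rw [p3, mul_one] at h3
  rw [← hV] at h4 h1 ⊢
  obtain ⟨SP, hSP⟩ : ∃ SP : ℝ, SP = ∑ x, ∑ y, cr x y Φ := ⟨_, rfl⟩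
  obtain ⟨SQ, hSQ⟩ : ∃ SQ : ℝ, SQ = ∑ x, ∑ y, cr x y Ψ := ⟨_, rfl⟩
  rw [← hSP] at h2 ⊢
  rw [← hSQ] at e1 h1
  have h5 : γ / V * SP ≤ γ / V * SQ + U * V := by linarith
  have h6 : SP / V ^ 2 ≤ SQ / V ^ 2 + U / γ := by
    have e2 : SP / V ^ 2 = 1 / (γ * V) * (γ / V * SP) := by
      field_simp
    have e3 : SQ / V ^ 2 + U / γ = 1 / (γ * V) * (γ / V * SQ + U * V) := by
      field_simp
    rw [e2, e3]
    exact mul_le_mul_of_nonneg_left h5 (by positivity)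
  have h7 : U / γ ≤ ε / 4 * Real.sqrt U := by
    rw [div_le_iff₀ hγ]
    calc U = Real.sqrt U * Real.sqrt U := hUU2
      _ ≤ ε * γ / 4 * Real.sqrt U := mul_le_mul_of_nonneg_right hsU2 hsU.le
      _ = ε / 4 * Real.sqrt U * γ := by ring
  have h8 := hIL L
  have hs2 : 1 ≤ Real.sqrt 2 := by
    rw [show (1 : ℝ) = Real.sqrt 1 by simp]
    exact Real.sqrt_le_sqrt (by norm_num)
  have h9 : IL d L / Real.sqrt 2 ≤ ILg d L γ / Real.sqrt 2 + ε / 4 := by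
    have h10 : IL d L / Real.sqrt 2 ≤ (ILg d L γ + ε / 4) / Real.sqrt 2 :=
      div_le_div_of_nonneg_right h8 (by linarith)
    rw [add_div] at h10
    have h11 : ε / 4 / Real.sqrt 2 ≤ ε / 4 := div_le_self (by positivity) hs2
    linarith
  have h12 : (IL d L / Real.sqrt 2 - ε) * Real.sqrt U ≤
      (ILg d L γ / Real.sqrt 2 - ε / 4) * Real.sqrt U - ε / 4 * Real.sqrt U := by
    have h13 : (IL d L / Real.sqrt 2 - ε) * Real.sqrt U ≤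
        (ILg d L γ / Real.sqrt 2 - ε / 4 - ε / 4) * Real.sqrt U :=
      mul_le_mul_of_nonneg_right (by linarith) hsU.le
    linarith
  linarith

end Pool.Agent.N989.QL_LALL
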